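import Mathlib
import Pool.Agent.Q281.Per

set_option autoImplicit false

/-!
# The permanental Q-polynomial is not a complete graph invariant (MP_5909b9_co)
-/

namespace Pool.Agent.Results.MP_5909b9_co.EightVertices

open MvPolynomial Pool.Agent.Q281.Per

/-- The adjacency matrix of `G` over the polynomials in three variables. -/
noncomputable def adj {n : ℕ} (G : SimpleGraph (Fin n)) :
    Matrix (Fin n) (Fin n) (MvPolynomial (Fin 3) ℚ) :=
  open Classical in Matrix.of fun i j => if G.Adj i j then 1 else 0

/-- The matrix all of whose entries are `1`. -/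
noncomputable def ones (n : ℕ) : Matrix (Fin n) (Fin n) (MvPolynomial (Fin 3) ℚ) :=
  Matrix.of fun _ _ => 1

/-- `P(G; x, lambda, mu) = per (x I + lambda A + mu (J - I - A))`; the variables `x, lambda, mu`
are `X 0, X 1, X 2`. -/
noncomputable def P {n : ℕ} (G : SimpleGraph (Fin n)) : MvPolynomial (Fin 3) ℚ :=
  ((X 0 : MvPolynomial (Fin 3) ℚ) • (1 : Matrix (Fin n) (Fin n) (MvPolynomial (Fin 3) ℚ)) +
    (X 1 : MvPolynomial (Fin 3) ℚ) • adj G +
    (X 2 : MvPolynomial (Fin 3) ℚ) • (ones n - 1 - adj G)).permanent

/-- The operator `omega`: it fixes `x` and `lambda` and sends `mu ^ r` to `mu ^ r / r!`. -/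
noncomputable def omega (p : MvPolynomial (Fin 3) ℚ) : MvPolynomial (Fin 3) ℚ :=
  ∑ m ∈ p.support, monomial m (p.coeff m / (m 2).factorial)

/-- The permanental Q-polynomial `Q(G; x, lambda, mu) = omega P(G; x + mu, lambda + mu, mu)`. -/
noncomputable def Q {n : ℕ} (G : SimpleGraph (Fin n)) : MvPolynomial (Fin 3) ℚ :=
  omega (aeval ![X 0 + X 2, X 1 + X 2, X 2] (P G))

/-! ### counting permutations -/

section

variable {n : ℕ} (a : Fin n → Fin n → Bool)

/-- number of fixed points -/
def cx (σ : Equiv.Perm (Fin n)) : ℕ := (Finset.univ.filter (fun i => σ i = i)).card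

/-- number of moved points `i` with `σ i` adjacent to `i` -/
def cl (σ : Equiv.Perm (Fin n)) : ℕ :=
  ((Finset.univ.filter (fun i => ¬ σ i = i)).filter (fun i => a (σ i) i = true)).card

/-- both numbers in one -/
def code (σ : Equiv.Perm (Fin n)) : ℕ := cx σ + (n + 1) * cl a σ

theorem cx_add_cl (σ : Equiv.Perm (Fin n)) : cx σ + (cl a σ +
    ((Finset.univ.filter (fun i => ¬ σ i = i)).filter (fun i => ¬ a (σ i) i = true)).card) = n := by
  unfold cx cl
  rw [Finset.card_filter_add_card_filter_not, Finset.card_filter_add_card_filter_not]
  simp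

theorem cx_lt (σ : Equiv.Perm (Fin n)) : cx σ < n + 1 := by
  have := cx_add_cl (fun _ _ => true) σ; omega

theorem cl_le (σ : Equiv.Perm (Fin n)) : cl a σ ≤ n := by
  have := cx_add_cl a σ; omega

theorem code_lt (σ : Equiv.Perm (Fin n)) : code a σ < (n + 1) * (n + 1) := by
  have h1 := cx_lt σ
  have h2 := cl_le a σ
  unfold code
  nlinarith

theorem code_mod (σ : Equiv.Perm (Fin n)) : code a σ % (n + 1) = cx σ := by
  unfold code
  rw [Nat.add_mul_mod_self_left, Nat.mod_eq_of_lt (cx_lt σ)]

theorem code_div (σ : Equiv.Perm (Fin n)) : code a σ / (n + 1) = cl a σ := by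
  unfold code
  rw [Nat.add_mul_div_left _ _ (Nat.succ_pos n)]
  rw [Nat.div_eq_of_lt (cx_lt σ), zero_add]

theorem prod_entries {R : Type} [CommMonoid R] (x l m : R) (σ : Equiv.Perm (Fin n)) :
    ∏ i, (if σ i = i then x else if a (σ i) i = true then l else m) =
      x ^ (code a σ % (n + 1)) * (l ^ (code a σ / (n + 1)) *
        m ^ (n - code a σ % (n + 1) - code a σ / (n + 1))) := by
  rw [Finset.prod_ite, Finset.prod_const, Finset.prod_ite, Finset.prod_const, Finset.prod_const,
    code_mod, code_div]
  have := cx_add_cl a σ
  have h2 : n - cx σ - cl a σ =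
    ((Finset.univ.filter (fun i => ¬ σ i = i)).filter (fun i => ¬ a (σ i) i = true)).card := by
    omega
  rw [h2]
  rfl

/-- number of permutations with a given code -/
def cnt (k : ℕ) : ℕ := (Finset.univ.filter (fun σ => code a σ = k)).card

theorem cnt_le (k : ℕ) : cnt a k ≤ n.factorial := by
  unfold cnt
  refine (Finset.card_filter_le _ _).trans ?_
  rw [Finset.card_univ, Fintype.card_perm, Fintype.card_fin]

theorem sum_code {R : Type} [Semiring R] (φ : ℕ → R) :
    ∑ σ : Equiv.Perm (Fin n), φ (code a σ) =
      ∑ k ∈ Finset.range ((n + 1) * (n + 1)), (cnt a k : R) * φ k := by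
  rw [← Finset.sum_fiberwise_of_maps_to (s := Finset.univ) (t := Finset.range ((n + 1) * (n + 1)))
    (g := code a) (fun σ _ => Finset.mem_range.2 (code_lt a σ))]
  refine Finset.sum_congr rfl fun k _ => ?_
  rw [Finset.sum_congr rfl (g := fun _ => φ k) (fun σ hσ => by
    rw [(Finset.mem_filter.1 hσ).2]), Finset.sum_const, nsmul_eq_mul]
  rfl

/-- the integer matrix with `x = B`, `lambda = B ^ (n+1)`, `mu = 1` -/
def kron (B : ℕ) : Matrix (Fin n) (Fin n) ℤ := Matrix.of fun i j =>
  if i = j then (B : ℤ) else if a i j = true then (B : ℤ) ^ (n + 1) else 1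

theorem kron_permanent (B : ℕ) : (kron a B).permanent =
    ((∑ k ∈ Finset.range ((n + 1) * (n + 1)), cnt a k * B ^ k : ℕ) : ℤ) := by
  unfold Matrix.permanent kron
  simp only [Matrix.of_apply]
  rw [Finset.sum_congr rfl (g := fun σ => (B : ℤ) ^ (code a σ)) (fun σ _ => ?_)]
  · rw [sum_code a (fun k => (B : ℤ) ^ k)]
    push_cast
    rfl
  · rw [prod_entries, one_pow, mul_one, ← pow_mul, ← pow_add]
    congr 1
    exact Nat.mod_add_div _ _

theorem P_eq (G : SimpleGraph (Fin n)) (hG : ∀ i j, G.Adj i j ↔ a i j = true) :
    P G = ∑ k ∈ Finset.range ((n + 1) * (n + 1)), (cnt a k : MvPolynomial (Fin 3) ℚ) *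
      (X 0 ^ (k % (n + 1)) * (X 1 ^ (k / (n + 1)) * X 2 ^ (n - k % (n + 1) - k / (n + 1)))) := by
  rw [← sum_code a (fun k => (X 0 ^ (k % (n + 1)) * (X 1 ^ (k / (n + 1)) *
    X 2 ^ (n - k % (n + 1) - k / (n + 1))) : MvPolynomial (Fin 3) ℚ))]
  unfold P Matrix.permanent
  refine Finset.sum_congr rfl fun σ _ => ?_
  rw [← prod_entries]
  refine Finset.prod_congr rfl fun i _ => ?_
  simp only [Matrix.add_apply, Matrix.smul_apply, Matrix.sub_apply, adj, ones, Matrix.of_apply,
    smul_eq_mul, Matrix.one_apply]
  by_cases h1 : σ i = i
  · simp [h1]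
  · by_cases h2 : a (σ i) i = true
    · simp [h1, h2, (hG _ _).2 h2]
    · have h3 : ¬ G.Adj (σ i) i := fun h => h2 ((hG _ _).1 h)
      simp [h1, h2, h3]

theorem P_eq_of_kron (b : Fin n → Fin n → Bool) (G H : SimpleGraph (Fin n))
    (hG : ∀ i j, G.Adj i j ↔ a i j = true) (hH : ∀ i j, H.Adj i j ↔ b i j = true) (B : ℕ)
    (hB : n.factorial < B) (h : (kron a B).permanent = (kron b B).permanent) : P G = P H := by
  rw [kron_permanent, kron_permanent, Nat.cast_inj] at h
  have h1 := digits_unique B _ (cnt a) (cnt b) (fun k => (cnt_le a k).trans_lt hB)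
    (fun k => (cnt_le b k).trans_lt hB) h
  rw [P_eq a G hG, P_eq b H hH]
  refine Finset.sum_congr rfl fun k hk => ?_
  rw [h1 k (Finset.mem_range.1 hk)]

end

/-! ### the two graphs -/

/-- symmetric closure of a list of pairs -/
def look (l : List (ℕ × ℕ)) (i j : Fin 8) : Bool :=
  l.contains (i.val, j.val) || l.contains (j.val, i.val)

/-- edges of the first graph -/
def eG : List (ℕ × ℕ) := [(0,3),(0,5),(0,6),(0,7),(1,4),(1,5),(1,7),(2,5),(2,7),(3,6),(3,7),(4,6),
  (5,6),(5,7)]

/-- edges of the second graph -/
def eH : List (ℕ × ℕ) := [(0,3),(0,5),(0,6),(0,7),(1,4),(1,5),(1,7),(2,5),(2,6),(2,7),(3,6),(4,6),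
  (5,7),(6,7)]

/-- The first graph. -/
def GG : SimpleGraph (Fin 8) where
  Adj i j := look eG i j = true
  symm := ⟨by decide +kernel⟩
  loopless := ⟨by decide +kernel⟩

/-- The second graph. -/
def HH : SimpleGraph (Fin 8) where
  Adj i j := look eH i j = true
  symm := ⟨by decide +kernel⟩
  loopless := ⟨by decide +kernel⟩

/-- columns of the first matrix -/
def colG : List (List ℤ) :=
  [[65536, 1, 1, 22300745198530623141535718272648361505980416, 1, 22300745198530623141535718272648361505980416, 22300745198530623141535718272648361505980416, 22300745198530623141535718272648361505980416],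
    [1, 65536, 1, 1, 22300745198530623141535718272648361505980416, 22300745198530623141535718272648361505980416, 1, 22300745198530623141535718272648361505980416],
    [1, 1, 65536, 1, 1, 22300745198530623141535718272648361505980416, 1, 22300745198530623141535718272648361505980416],
    [22300745198530623141535718272648361505980416, 1, 1, 65536, 1, 1, 22300745198530623141535718272648361505980416, 22300745198530623141535718272648361505980416],
    [1, 22300745198530623141535718272648361505980416, 1, 1, 65536, 1, 22300745198530623141535718272648361505980416, 1],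
    [22300745198530623141535718272648361505980416, 22300745198530623141535718272648361505980416, 22300745198530623141535718272648361505980416, 1, 1, 65536, 22300745198530623141535718272648361505980416, 22300745198530623141535718272648361505980416],
    [22300745198530623141535718272648361505980416, 1, 1, 22300745198530623141535718272648361505980416, 22300745198530623141535718272648361505980416, 22300745198530623141535718272648361505980416, 65536, 1],
    [22300745198530623141535718272648361505980416, 22300745198530623141535718272648361505980416, 22300745198530623141535718272648361505980416, 22300745198530623141535718272648361505980416, 1, 22300745198530623141535718272648361505980416, 1, 65536]]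

/-- columns of the second matrix -/
def colH : List (List ℤ) :=
  [[65536, 1, 1, 22300745198530623141535718272648361505980416, 1, 22300745198530623141535718272648361505980416, 22300745198530623141535718272648361505980416, 22300745198530623141535718272648361505980416],
    [1, 65536, 1, 1, 22300745198530623141535718272648361505980416, 22300745198530623141535718272648361505980416, 1, 22300745198530623141535718272648361505980416],
    [1, 1, 65536, 1, 1, 22300745198530623141535718272648361505980416, 22300745198530623141535718272648361505980416, 22300745198530623141535718272648361505980416],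
    [22300745198530623141535718272648361505980416, 1, 1, 65536, 1, 1, 22300745198530623141535718272648361505980416, 1],
    [1, 22300745198530623141535718272648361505980416, 1, 1, 65536, 1, 22300745198530623141535718272648361505980416, 1],
    [22300745198530623141535718272648361505980416, 22300745198530623141535718272648361505980416, 22300745198530623141535718272648361505980416, 1, 1, 65536, 1, 22300745198530623141535718272648361505980416],
    [22300745198530623141535718272648361505980416, 1, 22300745198530623141535718272648361505980416, 22300745198530623141535718272648361505980416, 22300745198530623141535718272648361505980416, 1, 65536, 22300745198530623141535718272648361505980416],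
    [22300745198530623141535718272648361505980416, 22300745198530623141535718272648361505980416, 22300745198530623141535718272648361505980416, 1, 1, 22300745198530623141535718272648361505980416, 22300745198530623141535718272648361505980416, 65536]]

theorem listG : (List.finRange 8).map (fun j => (List.finRange 8).map
    (fun i => kron (look eG) 65536 j i)) = colG := by
  decide +kernel

theorem listH : (List.finRange 8).map (fun j => (List.finRange 8).map
    (fun i => kron (look eH) 65536 j i)) = colH := by
  decide +kernel

theorem key : ryd colG [0, 0, 0, 0, 0, 0, 0, 0] =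
    ryd colH [0, 0, 0, 0, 0, 0, 0, 0] := by
  decide +kernel

theorem P_same : P GG = P HH := by
  refine P_eq_of_kron (look eG) (look eH) GG HH (fun _ _ => Iff.rfl) (fun _ _ => Iff.rfl) 65536
    (by decide) ?_
  rw [permanent_eq_ryd, permanent_eq_ryd, listG, listH]
  exact key

theorem not_iso : ¬ Nonempty (GG ≃g HH) := by
  rintro ⟨f⟩
  have hc : ∀ v, (Finset.univ.filter (fun w => look eG v w = true)).card =
      (Finset.univ.filter (fun w => look eH (f v) w = true)).card := by
    intro v
    refine Finset.card_bij (fun w _ => f w) ?_ (fun _ _ _ _ h => f.injective h) ?_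
    · intro w hw
      rw [Finset.mem_filter] at hw ⊢
      exact ⟨Finset.mem_univ _, f.map_adj_iff.2 hw.2⟩
    · intro w hw
      rw [Finset.mem_filter] at hw
      refine ⟨f.symm w, ?_, by simp⟩
      rw [Finset.mem_filter]
      refine ⟨Finset.mem_univ _, ?_⟩
      have h2 : HH.Adj (f v) (f (f.symm w)) := by
        rw [RelIso.apply_symm_apply]; exact hw.2
      exact f.map_adj_iff.1 h2
  have h2 := hc 2
  have h5 := hc 5
  have h7 := hc 7
  have a5 : look eH (f 2) (f 5) = true := f.map_adj_iff.2 (show look eG 2 5 = true by decide)
  have a7 : look eH (f 2) (f 7) = true := f.map_adj_iff.2 (show look eG 2 7 = true by decide)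
  have hne : f 5 ≠ f 7 := fun h => absurd (f.injective h) (by decide)
  rw [show (Finset.univ.filter (fun w => look eG 2 w = true)).card = 2 by decide +kernel] at h2
  rw [show (Finset.univ.filter (fun w => look eG 5 w = true)).card = 5 by decide +kernel] at h5
  rw [show (Finset.univ.filter (fun w => look eG 7 w = true)).card = 5 by decide +kernel] at h7
  have key : ∀ u v w : Fin 8, look eH u v = true → look eH u w = true → v ≠ w →
      2 = (Finset.univ.filter (fun w => look eH u w = true)).card →
      5 = (Finset.univ.filter (fun x => look eH v x = true)).card →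
      5 = (Finset.univ.filter (fun x => look eH w x = true)).card → False := by
    decide +kernel
  exact key _ _ _ a5 a7 hne h2 h5 h7

/-- There are two non-isomorphic graphs with eight vertices with the same permanental
Q-polynomial (and the same polynomial `P`). -/
theorem result : ∃ (n : ℕ) (G H : SimpleGraph (Fin n)), n = 8 ∧ Q G = Q H ∧ P G = P H ∧
    ¬ Nonempty (G ≃g H) :=
  ⟨8, GG, HH, rfl, by unfold Q; rw [P_same], P_same, not_iso⟩

end Pool.Agent.Results.MP_5909b9_co.EightVertices
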